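import Pool.Agent.W529.ST.Wrap
import Pool.Agent.W529.ST.Gram
import Pool.Agent.W529.ST.Meas

/-! Bessel's inequality for the twisted base changes at every large scale, uniform in the function. -/

set_option autoImplicit false
set_option linter.unusedSectionVars false

namespace Pool.Agent.Q11.ES

open NumberField IsDedekindDomain Filter Topology Pool.Agent.H341R2
open Pool.Agent.W529.ST Pool.Agent.W353.TP
open Pool.Agent.H921R2.TatePole (nm two_le_nm R hc R_eq_hc R_le kerPrime hom_finite)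
open scoped TensorProduct

section
variable {K : Type} [Field K] [NumberField K]

/-- the mean over the homomorphisms to the prime fields -/
noncomputable def AK (N : ℕ) (g : HX K → ℝ) : ℝ :=
  Av N fun p => ∑ u : 𝓞 K →+* ZMod (p : ℕ), g ⟨p, u⟩

theorem AK_eq (N : ℕ) : ∃ s : Finset (HX K), ∀ g : HX K → ℝ,
    AK N g = (∑ z ∈ s, g z) / (Nat.primeCounting N : ℝ) := by
  classical
  refine ⟨(PR N).sigma fun p => (Finset.univ : Finset (𝓞 K →+* ZMod (p : ℕ))), fun g => ?_⟩
  unfold AK Av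
  rw [Finset.sum_sigma]

theorem AK_lin (N : ℕ) (a b : ℝ) (g h : HX K → ℝ) :
    AK N (fun z => a * g z + b * h z) = a * AK N g + b * AK N h := by
  obtain ⟨s, hs⟩ := AK_eq (K := K) N
  rw [hs, hs, hs, Finset.sum_add_distrib, ← Finset.mul_sum, ← Finset.mul_sum, add_div,
    mul_div_assoc, mul_div_assoc]

theorem AK_mono {N : ℕ} {g h : HX K → ℝ} (hgh : ∀ z, g z ≤ h z) : AK N g ≤ AK N h := by
  obtain ⟨s, hs⟩ := AK_eq (K := K) N
  rw [hs, hs]
  exact div_le_div_of_nonneg_right (Finset.sum_le_sum fun z _ => hgh z) (Nat.cast_nonneg _)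

theorem AK_abs (N : ℕ) (g : HX K → ℝ) : |AK N g| ≤ AK N fun z => |g z| := by
  obtain ⟨s, hs⟩ := AK_eq (K := K) N
  rw [hs, hs, abs_div, abs_of_nonneg (Nat.cast_nonneg (Nat.primeCounting N) : (0 : ℝ) ≤ _)]
  exact div_le_div_of_nonneg_right (Finset.abs_sum_le_sum_abs _ _) (Nat.cast_nonneg _)

theorem AK_nonneg {N : ℕ} {g : HX K → ℝ} (hg : ∀ z, 0 ≤ g z) : 0 ≤ AK N g := by
  obtain ⟨s, hs⟩ := AK_eq (K := K) N
  rw [hs]
  exact div_nonneg (Finset.sum_nonneg fun z _ => hg z) (Nat.cast_nonneg _)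

theorem AK_sum {ι : Type} (T : Finset ι) (N : ℕ) (g : ι → HX K → ℝ) :
    AK N (fun z => ∑ i ∈ T, g i z) = ∑ i ∈ T, AK N (g i) := by
  obtain ⟨s, hs⟩ := AK_eq (K := K) N
  rw [hs, Finset.sum_comm, Finset.sum_div]
  exact Finset.sum_congr rfl fun i _ => (hs _).symm

theorem AK_cs (N : ℕ) (g h : HX K → ℝ) :
    AK N (fun z => g z * h z) ^ 2 ≤ AK N (fun z => g z ^ 2) * AK N fun z => h z ^ 2 := by
  obtain ⟨s, hs⟩ := AK_eq (K := K) N
  rw [hs, hs, hs, div_pow, div_mul_div_comm, ← sq]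
  exact div_le_div_of_nonneg_right (Finset.sum_mul_sq_le_sq_mul_sq _ _ _) (sq_nonneg _)

theorem AK_const_mul (N : ℕ) (a : ℝ) (g : HX K → ℝ) : AK N (fun z => a * g z) = a * AK N g := by
  obtain ⟨s, hs⟩ := AK_eq (K := K) N
  rw [hs, hs, ← Finset.mul_sum, mul_div_assoc]

/-- **Bessel's inequality**, uniform in the function. -/
theorem bessel_gen {ι : Type} (T : Finset ι) (V : ι → HX K → ℝ) (Γ : ι → ι → ℝ)
    (hΓ : ∀ i ∈ T, ∀ j ∈ T, Tendsto (fun N => AK N fun z => V i z * V j z) atTop (𝓝 (Γ i j)))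
    (h0 : ∀ i ∈ T, ∀ j ∈ T, i ≠ j → Γ i j = 0) {n : ℝ} (hn0 : 0 ≤ n)
    (hn : ∀ i ∈ T, Γ i i ≤ n) {η : ℝ} (hη : 0 < η) :
    ∀ᶠ N in atTop, ∀ h : HX K → ℝ,
      ∑ i ∈ T, AK N (fun z => h z * V i z) ^ 2 ≤ (n + η) * AK N fun z => h z ^ 2 := by
  classical
  have h1 : ∀ᶠ N : ℕ in atTop, ∀ i ∈ T, ∀ j ∈ T, i ≠ j →
      (T.card + 1) * |AK N fun z => V i z * V j z| < η / 2 := by
    rw [Filter.eventually_all_finset]
    intro i hi
    rw [Filter.eventually_all_finset]
    intro j hj
    by_cases hne : i = j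
    · exact Eventually.of_forall fun N h => absurd hne h
    · have h2 := hΓ i hi j hj
      rw [h0 i hi j hj hne] at h2
      have h3 : Tendsto (fun N => ((T.card : ℝ) + 1) * |AK N fun z => V i z * V j z|) atTop
          (𝓝 (((T.card : ℝ) + 1) * |(0 : ℝ)|)) := h2.abs.const_mul _
      rw [abs_zero, mul_zero] at h3
      filter_upwards [h3.eventually_lt_const (half_pos hη)] with N hN _
      exact hN
  have h1' : ∀ᶠ N : ℕ in atTop, ∀ i ∈ T, AK N (fun z => V i z * V i z) < n + η / 2 := by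
    rw [Filter.eventually_all_finset]
    intro i hi
    exact (hΓ i hi i hi).eventually_lt_const (by linarith [hn i hi])
  filter_upwards [h1, h1'] with N hN hN' h
  set y : ι → ℝ := fun i => AK N (fun z => h z * V i z) with hy
  set S : ℝ := ∑ i ∈ T, y i ^ 2 with hS
  have hS0 : 0 ≤ S := Finset.sum_nonneg fun d _ => sq_nonneg _
  have hm0 : 0 ≤ AK N (fun z => h z ^ 2) := AK_nonneg fun z => sq_nonneg _
  set W : HX K → ℝ := fun z => ∑ i ∈ T, y i * V i z with hW
  have h2 : S = AK N (fun z => h z * W z) := by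
    have e1 : (fun z => h z * W z) = fun z => ∑ i ∈ T, y i * (h z * V i z) := by
      funext z
      rw [hW, Finset.mul_sum]
      exact Finset.sum_congr rfl fun i _ => by ring
    rw [e1, AK_sum, hS]
    refine Finset.sum_congr rfl fun i _ => ?_
    rw [AK_const_mul, sq]
  have h3 := AK_cs N h W
  have h4 : AK N (fun z => W z ^ 2) =
      ∑ i ∈ T, ∑ j ∈ T, y i * y j * AK N fun z => V i z * V j z := by
    have e1 : (fun z => W z ^ 2) = fun z => ∑ i ∈ T, ∑ j ∈ T, y i * y j * (V i z * V j z) := by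
      funext z
      rw [hW, sq, Finset.sum_mul_sum]
      exact Finset.sum_congr rfl fun i _ => Finset.sum_congr rfl fun j _ => by ring
    rw [e1, AK_sum]
    refine Finset.sum_congr rfl fun i _ => ?_
    rw [AK_sum]
    exact Finset.sum_congr rfl fun j _ => AK_const_mul _ _ _
  have h5 : AK N (fun z => W z ^ 2) ≤ (n + η) * S := by
    rw [h4]
    have e1 : ∀ i ∈ T, ∀ j ∈ T, y i * y j * (AK N fun z => V i z * V j z) ≤
        (if i = j then (n + η / 2) * y i ^ 2 else 0) +
          η / 2 / (T.card + 1) * (|y i| * |y j|) := by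
      intro i hi j hj
      have hc : (0 : ℝ) < (T.card : ℝ) + 1 := by positivity
      by_cases hne : i = j
      · subst hne
        rw [if_pos rfl]
        have h6 := hN' i hi
        have h7 : y i * y i * (AK N fun z => V i z * V i z) ≤ (n + η / 2) * y i ^ 2 := by
          have := mul_le_mul_of_nonneg_left h6.le (mul_self_nonneg (y i))
          nlinarith
        have h8 : 0 ≤ η / 2 / (T.card + 1) * (|y i| * |y i|) := by positivity
        linarith
      · rw [if_neg hne, zero_add]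
        have h6 := hN i hi j hj hne
        have h7 : |AK N fun z => V i z * V j z| ≤ η / 2 / (T.card + 1) := by
          rw [le_div_iff₀ hc, mul_comm]
          exact h6.le
        calc y i * y j * (AK N fun z => V i z * V j z) ≤
              |y i * y j * (AK N fun z => V i z * V j z)| := le_abs_self _
          _ = |AK N fun z => V i z * V j z| * (|y i| * |y j|) := by rw [abs_mul, abs_mul]; ring
          _ ≤ _ := mul_le_mul_of_nonneg_right h7 (by positivity)
    refine (Finset.sum_le_sum fun i hi => Finset.sum_le_sum fun j hj => e1 i hi j hj).trans ?_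
    have e2 : ∑ i ∈ T, ∑ j ∈ T, ((if i = j then (n + η / 2) * y i ^ 2 else 0) +
        η / 2 / ((T.card : ℝ) + 1) * (|y i| * |y j|)) =
        (n + η / 2) * S + η / 2 / ((T.card : ℝ) + 1) * (∑ i ∈ T, |y i|) ^ 2 := by
      simp only [Finset.sum_add_distrib, Finset.sum_ite_eq]
      congr 1
      · rw [hS, Finset.mul_sum]
        exact Finset.sum_congr rfl fun d hd => if_pos hd
      · rw [sq, Finset.sum_mul_sum]
        simp only [Finset.mul_sum]
    rw [e2]
    have h6 : (∑ i ∈ T, |y i|) ^ 2 ≤ T.card * S := by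
      have := sq_sum_le_card_mul_sum_sq (s := T) (f := fun i => |y i|)
      simpa only [sq_abs] using this
    have h7 : η / 2 / ((T.card : ℝ) + 1) * (∑ i ∈ T, |y i|) ^ 2 ≤ η / 2 * S := by
      have hc : (0 : ℝ) < (T.card : ℝ) + 1 := by positivity
      calc η / 2 / ((T.card : ℝ) + 1) * (∑ i ∈ T, |y i|) ^ 2 ≤
            η / 2 / ((T.card : ℝ) + 1) * (T.card * S) := mul_le_mul_of_nonneg_left h6 (by positivity)
        _ ≤ η / 2 / ((T.card : ℝ) + 1) * ((T.card + 1) * S) := by
            refine mul_le_mul_of_nonneg_left ?_ (by positivity)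
            nlinarith
        _ = η / 2 * S := by field_simp
    linarith
  have h6 : S ^ 2 ≤ ((n + η) * AK N (fun z => h z ^ 2)) * S := by
    calc S ^ 2 = AK N (fun z => h z * W z) ^ 2 := by rw [h2]
      _ ≤ AK N (fun z => h z ^ 2) * AK N (fun z => W z ^ 2) := h3
      _ ≤ AK N (fun z => h z ^ 2) * ((n + η) * S) := mul_le_mul_of_nonneg_left h5 hm0
      _ = _ := by ring
  rcases hS0.eq_or_lt with h7 | h7
  · rw [← h7]
    positivity
  · have := h6
    rw [sq] at this
    exact le_of_mul_le_mul_right this h7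

open Classical in
/-- counting with cells -/
theorem count_gen {ι : Type} (T : Finset ι) (V : ι → HX K → ℝ) {n : ℝ} (hn0 : 0 ≤ n) {N : ℕ}
    (hB : ∀ h : HX K → ℝ,
      ∑ i ∈ T, AK N (fun z => h z * V i z) ^ 2 ≤ (n + 1) * AK N fun z => h z ^ 2)
    (hV : ∀ i ∈ T, AK N (fun z => |V i z|) ≤ 3) (h1 : AK (K := K) N (fun _ => 1) ≤ 2)
    (ν k : ℕ) (hk : 1 ≤ k) (κ : HX K → Fin ν) :
    ((T.filter fun i => ∃ g : HX K → ℝ, (∃ r : Fin ν → ℝ, (∀ c, |r c| ≤ 1) ∧
        ∀ z, |g z - r (κ z)| ≤ 1 / (16 * k)) ∧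
        3 / (8 * k : ℝ) ≤ |AK N fun z => g z * V i z|).card : ℝ) ≤ 64 * (n + 1) * ν * k ^ 2 := by
  have hkR : (0 : ℝ) < k := by exact_mod_cast hk
  set E := T.filter fun i => ∃ g : HX K → ℝ, (∃ r : Fin ν → ℝ, (∀ c, |r c| ≤ 1) ∧
        ∀ z, |g z - r (κ z)| ≤ 1 / (16 * k)) ∧
        3 / (8 * k : ℝ) ≤ |AK N fun z => g z * V i z| with hE
  let h : Fin ν → HX K → ℝ := fun c z => if κ z = c then 1 else 0
  let y : Fin ν → ι → ℝ := fun c i => AK N (fun z => h c z * V i z)
  have key : ∀ i ∈ E, 9 / (256 * (k : ℝ) ^ 2) ≤ ν * ∑ c, y c i ^ 2 := by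
    intro i hi
    obtain ⟨hiT, g, ⟨r, hr, hgr⟩, hge⟩ := Finset.mem_filter.1 hi
    have e1 : AK N (fun z => g z * V i z) =
        AK N (fun z => (g z - r (κ z)) * V i z) + ∑ c, r c * y c i := by
      have a1 : (fun z => g z * V i z) = fun z => 1 * ((g z - r (κ z)) * V i z) +
          1 * ∑ c, r c * (h c z * V i z) := by
        funext z
        have a2 : ∑ c, r c * (h c z * V i z) = r (κ z) * V i z := by
          rw [Finset.sum_eq_single (κ z)]
          · simp [h]
          · intro c _ hc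
            simp [h, Ne.symm hc]
          · intro hc
            exact absurd (Finset.mem_univ _) hc
        rw [a2]
        ring
      rw [a1, AK_lin, one_mul, one_mul, AK_sum]
      congr 1
      exact Finset.sum_congr rfl fun c _ => AK_const_mul _ _ _
    have e2 : |AK N (fun z => (g z - r (κ z)) * V i z)| ≤ 3 / (16 * k) := by
      refine (AK_abs _ _).trans ?_
      have a1 : AK N (fun z => |(g z - r (κ z)) * V i z|) ≤
          AK N (fun z => 1 / (16 * (k : ℝ)) * |V i z|) := AK_mono fun z => by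
        rw [abs_mul]
        exact mul_le_mul_of_nonneg_right (hgr z) (abs_nonneg _)
      refine a1.trans ?_
      rw [AK_const_mul]
      have a2 := mul_le_mul_of_nonneg_left (hV i hiT) (show 0 ≤ 1 / (16 * (k : ℝ)) by positivity)
      refine a2.trans (le_of_eq ?_)
      ring
    have e3 : |∑ c, r c * y c i| ≤ ∑ c, |y c i| := by
      refine (Finset.abs_sum_le_sum_abs _ _).trans (Finset.sum_le_sum fun c _ => ?_)
      rw [abs_mul]
      calc |r c| * |y c i| ≤ 1 * |y c i| := mul_le_mul_of_nonneg_right (hr c) (abs_nonneg _)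
        _ = _ := one_mul _
    have e4 : 3 / (16 * (k : ℝ)) ≤ ∑ c, |y c i| := by
      rw [e1] at hge
      have a1 := hge.trans (abs_add_le _ _)
      have a2 : 3 / (8 * (k : ℝ)) = 3 / (16 * k) + 3 / (16 * k) := by
        field_simp
        norm_num
      linarith
    have e5 : (∑ c, |y c i|) ^ 2 ≤ ν * ∑ c, y c i ^ 2 := by
      have := sq_sum_le_card_mul_sum_sq (s := (Finset.univ : Finset (Fin ν)))
        (f := fun c => |y c i|)
      simpa only [sq_abs, Finset.card_univ, Fintype.card_fin] using this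
    refine le_trans ?_ e5
    have e6 : 9 / (256 * (k : ℝ) ^ 2) = (3 / (16 * (k : ℝ))) ^ 2 := by
      field_simp
      norm_num
    rw [e6]
    exact pow_le_pow_left₀ (by positivity) e4 2
  -- the sum
  have htot : ∑ c, ∑ i ∈ T, y c i ^ 2 ≤ (n + 1) * 2 := by
    refine (Finset.sum_le_sum fun c _ => hB (h c)).trans ?_
    rw [← Finset.mul_sum, ← AK_sum]
    refine mul_le_mul_of_nonneg_left ?_ (by linarith)
    refine le_trans (AK_mono fun z => ?_) h1
    have a2 : ∑ c, h c z ^ 2 = 1 := by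
      rw [Finset.sum_eq_single (κ z)]
      · simp [h]
      · intro c _ hc
        simp [h, Ne.symm hc]
      · intro hc
        exact absurd (Finset.mem_univ _) hc
    exact a2.le
  have h2 : (E.card : ℝ) * (9 / (256 * (k : ℝ) ^ 2)) ≤ ν * ((n + 1) * 2) := by
    calc (E.card : ℝ) * (9 / (256 * (k : ℝ) ^ 2)) = ∑ i ∈ E, 9 / (256 * (k : ℝ) ^ 2) := by
          rw [Finset.sum_const, nsmul_eq_mul]
      _ ≤ ∑ i ∈ E, ν * ∑ c, y c i ^ 2 := Finset.sum_le_sum key
      _ = ν * ∑ c, ∑ i ∈ E, y c i ^ 2 := by rw [← Finset.mul_sum, Finset.sum_comm]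
      _ ≤ ν * ∑ c, ∑ i ∈ T, y c i ^ 2 := by
          refine mul_le_mul_of_nonneg_left ?_ (Nat.cast_nonneg _)
          refine Finset.sum_le_sum fun c _ => ?_
          exact Finset.sum_le_sum_of_subset_of_nonneg (Finset.filter_subset _ _)
            fun i _ _ => sq_nonneg _
      _ ≤ _ := mul_le_mul_of_nonneg_left htot (Nat.cast_nonneg _)
  have h3 : (0 : ℝ) < 9 / (256 * (k : ℝ) ^ 2) := by positivity
  have h4 : (E.card : ℝ) ≤ ν * ((n + 1) * 2) / (9 / (256 * (k : ℝ) ^ 2)) := by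
    rwa [le_div_iff₀ h3]
  refine h4.trans ?_
  rw [div_div_eq_mul_div, div_le_iff₀ (by norm_num)]
  have h5 : 0 ≤ (n + 1) * ν * (k : ℝ) ^ 2 := by positivity
  nlinarith

end

end Pool.Agent.Q11.ES
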