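import Pool.Agent.Q11.ES.Mean

/-! The laws at a large scale of the base changes and of their twists. -/

set_option autoImplicit false
set_option linter.unusedSectionVars false

namespace Pool.Agent.Q11.ES

open NumberField IsDedekindDomain Filter Topology Pool.Agent.H341R2
open Pool.Agent.W529.ST Pool.Agent.W353.TP
open Pool.Agent.H921R2.TatePole (nm two_le_nm R hc R_eq_hc R_le kerPrime hom_finite)
open scoped TensorProduct

section
variable {K F F' : Type} [Field K] [NumberField K] [Field F] [NumberField F] [Algebra K F]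
  [Field F'] [NumberField F'] [Algebra K F']

theorem maxSpec_of_field (h : IsField (F ⊗[K] F')) (m : MaximalSpectrum (F ⊗[K] F')) :
    m.asIdeal = ⊥ := by
  let _ : Field (F ⊗[K] F') := h.toField
  exact (eq_bot_or_eq_top m.asIdeal).resolve_right m.isMaximal.ne_top

theorem card_of_field (h : IsField (F ⊗[K] F')) :
    Nat.card (MaximalSpectrum (F ⊗[K] F')) = 1 := by
  have : Nontrivial (F ⊗[K] F') := ⟨h.exists_pair_ne⟩
  rw [Nat.card_eq_one_iff_unique]
  refine ⟨⟨fun a b => MaximalSpectrum.ext ?_⟩, inferInstance⟩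
  rw [maxSpec_of_field h a, maxSpec_of_field h b]

theorem inum_zero_of_field (h : IsField (F ⊗[K] F')) {D : F} {D' : F'}
    (hs : ¬ IsSquare (D ⊗ₜ[K] D')) : inum K F F' D D' = 0 := by
  unfold inum
  rw [Nat.card_eq_zero]
  left
  refine ⟨fun m => hs ?_⟩
  obtain ⟨⟨m, hm⟩, y, hy⟩ := m
  obtain ⟨y, rfl⟩ := Ideal.Quotient.mk_surjective y
  refine ⟨y, ?_⟩
  have h1 := maxSpec_of_field h ⟨m, hm⟩
  simp only at h1 hy
  rw [← map_mul, Ideal.Quotient.eq] at hy
  rw [h1, Ideal.mem_bot, sub_eq_zero] at hy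
  exact hy

theorem inum_one (F F' : Type) [Field F] [NumberField F] [Algebra K F]
    [Field F'] [NumberField F'] [Algebra K F'] :
    inum K F F' ((1 : 𝓞 F) : F) ((1 : 𝓞 F') : F') = Nat.card (MaximalSpectrum (F ⊗[K] F')) := by
  unfold inum
  refine Nat.card_congr (Equiv.subtypeUnivEquiv fun m => ?_)
  have h1 : (((1 : 𝓞 F) : F) ⊗ₜ[K] ((1 : 𝓞 F') : F')) = 1 := by
    rw [Algebra.TensorProduct.one_def]
    simp
  rw [h1, map_one]
  exact IsSquare.one

theorem inum_le_card (D : F) (D' : F') :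
    inum K F F' D D' ≤ Nat.card (MaximalSpectrum (F ⊗[K] F')) := by
  unfold inum
  have : Finite (MaximalSpectrum (F ⊗[K] F')) := inferInstance
  exact Nat.card_le_card_of_injective _ Subtype.val_injective

end

section
variable {K : Type} [Field K] [NumberField K]

theorem qh_one {F : Type} [Field F] [NumberField F] : qh (1 : 𝓞 F) = fun _ => 1 := by
  funext z
  rcases z with ⟨p, ψ⟩
  have : Fact (p : ℕ).Prime := ⟨p.2⟩
  rw [qh_eq, map_one, map_one]
  simp

theorem tendsto_push {F : Type} [Field F] [NumberField F] [Algebra K F] :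
    Tendsto (fun N => AK N fun z => push K (fun _ : HX F => (1 : ℝ)) z) atTop (𝓝 1) := by
  have := tendsto_Av (mean_hc F)
  refine this.congr fun N => ?_
  have h1 := AK_push (K := K) (F := F) N (fun _ => 1) (fun _ => 1)
  simp only [one_mul] at h1
  rw [h1]
  congr 1
  funext p
  rw [Finset.sum_const, Finset.card_univ, card_hom_eq, R_eq_hc, nsmul_eq_mul, mul_one]

theorem tendsto_one : Tendsto (fun N => AK (K := K) N fun _ => 1) atTop (𝓝 1) := by
  have := tendsto_Av (mean_hc K)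
  refine this.congr fun N => ?_
  unfold AK
  congr 1
  funext p
  rw [Finset.sum_const, Finset.card_univ, card_hom_eq, R_eq_hc, nsmul_eq_mul, mul_one]

theorem push_nonneg {F : Type} [Field F] [NumberField F] [Algebra K F] (z : HX K) :
    0 ≤ push K (fun _ : HX F => (1 : ℝ)) z := by
  unfold push
  exact Finset.sum_nonneg fun _ _ => zero_le_one

theorem push_qh_le {F : Type} [Field F] [NumberField F] [Algebra K F] (d : 𝓞 F) (z : HX K) :
    |push K (qh d) z| ≤ push K (fun _ : HX F => (1 : ℝ)) z := by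
  unfold push
  refine (Finset.abs_sum_le_sum_abs _ _).trans ?_
  exact Finset.sum_le_sum fun ψ _ => qh_abs d _

/-- functions of the class that are constant up to `1/(16k)` on the cells -/
theorem approx {X : Type} [MetricSpace X] {ν k : ℕ} {κ : X → Fin ν}
    (hκ : ∀ y z, κ y = κ z → dist y z ≤ 1 / (16 * k)) (g : X → ℝ) (hg : ∀ y, |g y| ≤ 1)
    (hl : ∀ y z, |g y - g z| ≤ dist y z) (x : HX K → X) :
    ∃ r : Fin ν → ℝ, (∀ c, |r c| ≤ 1) ∧ ∀ z, |g (x z) - r (κ (x z))| ≤ 1 / (16 * k) := by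
  classical
  refine ⟨fun c => if h : ∃ y, κ y = c then g h.choose else 0, fun c => ?_, fun z => ?_⟩
  · simp only
    split_ifs with h
    · exact hg _
    · simp
  · have h : ∃ y, κ y = κ (x z) := ⟨x z, rfl⟩
    simp only
    rw [dif_pos h]
    exact (hl _ _).trans (hκ _ _ h.choose_spec.symm)

variable {ι : Type} [Fintype ι] (F : ι → Type) [∀ i, Field (F i)] [∀ i, NumberField (F i)]
  [∀ i, Algebra K (F i)]

open Classical in
/-- the untwisted part -/
theorem count_base (n : ℕ) (hn : ∀ i, Nat.card (MaximalSpectrum (F i ⊗[K] F i)) ≤ n)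
    (hF : ∀ i j, i ≠ j → IsField (F i ⊗[K] F j)) (ν k : ℕ) (hk : 1 ≤ k) :
    ∀ᶠ N : ℕ in atTop, ∀ (X : Type) [MetricSpace X] (κ : X → Fin ν),
      (∀ y z, κ y = κ z → dist y z ≤ 1 / (16 * k)) → ∀ x : HX K → X,
      ((Finset.univ.filter fun i : ι => ∃ g : X → ℝ, (∀ y, |g y| ≤ 1) ∧
        (∀ y z, |g y - g z| ≤ dist y z) ∧ 3 / (8 * k : ℝ) ≤
          |AK N fun z => g (x z) * (push K (fun _ : HX (F i) => (1 : ℝ)) z - 1)|).card : ℝ) ≤
        64 * (n + 1) * ν * k ^ 2 := by
  have hb := bessel_gen (K := K) (Finset.univ : Finset ι)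
    (fun i z => push K (fun _ : HX (F i) => (1 : ℝ)) z - 1)
    (fun i j => (Nat.card (MaximalSpectrum (F i ⊗[K] F j)) : ℝ) - 1) (by
      intro i _ j _
      have h1 := tendsto_Av (gramN (K := K) (F := F i) (F' := F j) (D := 1) (D' := 1)
        one_ne_zero one_ne_zero)
      rw [inum_one (K := K) (F i) (F j), qh_one, qh_one] at h1
      have h2 := ((h1.sub (tendsto_push (K := K) (F := F i))).sub
        (tendsto_push (K := K) (F := F j))).add (tendsto_one (K := K))
      have e1 : (Nat.card (MaximalSpectrum (F i ⊗[K] F j)) : ℝ) - 1 - 1 + 1 =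
        (Nat.card (MaximalSpectrum (F i ⊗[K] F j)) : ℝ) - 1 := by ring
      rw [e1] at h2
      refine h2.congr fun N => ?_
      obtain ⟨s, hs⟩ := AK_eq (K := K) N
      have e2 : (Av N fun p => ∑ u : 𝓞 K →+* ZMod (p : ℕ),
        push K (fun _ : HX (F i) => (1 : ℝ)) ⟨p, u⟩ * push K (fun _ : HX (F j) => (1 : ℝ)) ⟨p, u⟩) =
        AK N fun z => push K (fun _ : HX (F i) => (1 : ℝ)) z *
          push K (fun _ : HX (F j) => (1 : ℝ)) z := rfl
      rw [e2, hs, hs, hs, hs, hs, ← sub_div, ← sub_div, ← add_div, ← Finset.sum_sub_distrib,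
        ← Finset.sum_sub_distrib, ← Finset.sum_add_distrib]
      congr 1
      refine Finset.sum_congr rfl fun z _ => ?_
      ring)
    (fun i _ j _ hij => by rw [card_of_field (hF i j hij)]; simp) (n := n) (Nat.cast_nonneg n)
    (fun i _ => by
      have : (Nat.card (MaximalSpectrum (F i ⊗[K] F i)) : ℝ) ≤ n := by exact_mod_cast hn i
      linarith) zero_lt_one
  have h1 : ∀ᶠ N : ℕ in atTop, ∀ i : ι,
      AK N (fun z => |push K (fun _ : HX (F i) => (1 : ℝ)) z - 1|) ≤ 3 := by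
    rw [Filter.eventually_all]
    intro i
    have h2 := (tendsto_push (K := K) (F := F i)).add (tendsto_one (K := K))
    filter_upwards [h2.eventually_lt_const (show (1 : ℝ) + 1 < 3 by norm_num)] with N hN
    refine le_trans ?_ hN.le
    have h3 := AK_lin (K := K) N 1 1 (fun z => push K (fun _ : HX (F i) => (1 : ℝ)) z)
      (fun _ => 1)
    simp only [one_mul] at h3
    rw [← h3]
    refine AK_mono fun z => ?_
    have h4 := push_nonneg (K := K) (F := F i) z
    rw [abs_le]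
    constructor <;> linarith
  filter_upwards [hb, h1, (tendsto_one (K := K)).eventually_lt_const
    (show (1 : ℝ) < 2 by norm_num)] with N hN hN1 hN2 X _ κ hκ x
  refine le_trans ?_ (count_gen Finset.univ (fun i z => push K (fun _ : HX (F i) => (1 : ℝ)) z - 1)
    (Nat.cast_nonneg n) hN (fun i _ => hN1 i) hN2.le ν k hk (fun z => κ (x z)))
  refine Nat.cast_le.2 (Finset.card_le_card fun i hi => ?_)
  obtain ⟨_, g, hg, hl, hge⟩ := Finset.mem_filter.1 hi
  exact Finset.mem_filter.2 ⟨Finset.mem_univ _, fun z => g (x z), approx hκ g hg hl x, hge⟩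

open Classical in
/-- the twisted part -/
theorem count_twist (n : ℕ) (hn : ∀ i, Nat.card (MaximalSpectrum (F i ⊗[K] F i)) ≤ n)
    (hF : ∀ i j, i ≠ j → IsField (F i ⊗[K] F j)) (d : ∀ i, 𝓞 (F i)) (hd : ∀ i, d i ≠ 0)
    (hsq : ∀ i j, i ≠ j → ¬ IsSquare ((d i : F i) ⊗ₜ[K] (d j : F j))) (ν k : ℕ) (hk : 1 ≤ k) :
    ∀ᶠ N : ℕ in atTop, ∀ (X : Type) [MetricSpace X] (κ : X → Fin ν),
      (∀ y z, κ y = κ z → dist y z ≤ 1 / (16 * k)) → ∀ x : HX K → X,
      ((Finset.univ.filter fun i : ι => ∃ g : X → ℝ, (∀ y, |g y| ≤ 1) ∧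
        (∀ y z, |g y - g z| ≤ dist y z) ∧ 3 / (8 * k : ℝ) ≤
          |AK N fun z => g (x z) * push K (qh (d i)) z|).card : ℝ) ≤
        64 * (n + 1) * ν * k ^ 2 := by
  have hb := bessel_gen (K := K) (Finset.univ : Finset ι)
    (fun i z => push K (qh (d i)) z)
    (fun i j => (inum K (F i) (F j) ((d i : 𝓞 (F i)) : F i) ((d j : 𝓞 (F j)) : F j) : ℝ)) (by
      intro i _ j _
      exact tendsto_Av (gramN (K := K) (F := F i) (F' := F j) (hd i) (hd j)))
    (fun i _ j _ hij => by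
      rw [inum_zero_of_field (hF i j hij) (hsq i j hij), Nat.cast_zero])
    (n := n) (Nat.cast_nonneg n)
    (fun i _ => by exact_mod_cast (inum_le_card (K := K) _ _).trans (hn i)) zero_lt_one
  have h1 : ∀ᶠ N : ℕ in atTop, ∀ i : ι, AK N (fun z => |push K (qh (d i)) z|) ≤ 3 := by
    rw [Filter.eventually_all]
    intro i
    filter_upwards [(tendsto_push (K := K) (F := F i)).eventually_lt_const
      (show (1 : ℝ) < 3 by norm_num)] with N hN
    exact (AK_mono fun z => push_qh_le (d i) z).trans hN.le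
  filter_upwards [hb, h1, (tendsto_one (K := K)).eventually_lt_const
    (show (1 : ℝ) < 2 by norm_num)] with N hN hN1 hN2 X _ κ hκ x
  refine le_trans ?_ (count_gen Finset.univ (fun i z => push K (qh (d i)) z)
    (Nat.cast_nonneg n) hN (fun i _ => hN1 i) hN2.le ν k hk (fun z => κ (x z)))
  refine Nat.cast_le.2 (Finset.card_le_card fun i hi => ?_)
  obtain ⟨_, g, hg, hl, hge⟩ := Finset.mem_filter.1 hi
  exact Finset.mem_filter.2 ⟨Finset.mem_univ _, fun z => g (x z), approx hκ g hg hl x, hge⟩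

/-- the mean over the primes of `K` of the symmetrised function -/
theorem mean_base {ε : ℝ} (hε : 0 < ε) :
    ∀ᶠ N : ℕ in atTop, ∀ (X : Type) (x : HeightOneSpectrum (𝓞 K) → X) (g : X → ℝ),
      (∀ y, |g y| ≤ 1) → |mean K (fun v => g (x v)) N - AK N fun z => g (xh x z)| ≤ ε := by
  filter_upwards [mean_unif (F := K) hε] with N hN X x g hg
  exact hN (fun v => g (x v)) fun v => hg _

open Classical in
/-- **The laws of the base changes at a large scale.** -/
theorem main_base (n : ℕ) (hn : ∀ i, Nat.card (MaximalSpectrum (F i ⊗[K] F i)) ≤ n)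
    (hF : ∀ i j, i ≠ j → IsField (F i ⊗[K] F j))
    (Z : ∀ i, Finset (HeightOneSpectrum (𝓞 (F i)))) (ν k : ℕ) (hk : 1 ≤ k) :
    ∀ᶠ N : ℕ in atTop, ∀ (X : Type) [MetricSpace X] (κ : X → Fin ν),
      (∀ y z, κ y = κ z → dist y z ≤ 1 / (16 * k)) →
      ∀ (x : HeightOneSpectrum (𝓞 K) → X) (c : ∀ i, HeightOneSpectrum (𝓞 (F i)) → X),
      (∀ i, TwistOff (Z i) 1 id x (c i)) →
      ((Finset.univ.filter fun i : ι => ∃ f : X → ℝ, (LipschitzWith 1 f ∧ ∀ y, |f y| ≤ 1) ∧
        1 / (k : ℝ) ≤ |mean (F i) (fun w => f (c i w)) N - mean K (fun v => f (x v)) N|).card : ℝ) ≤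
        64 * (n + 1) * ν * k ^ 2 := by
  have hkR : (0 : ℝ) < k := by exact_mod_cast hk
  have h1 : ∀ᶠ N : ℕ in atTop, ∀ i : ι, ∀ (X : Type) (σ : X → X)
      (x : HeightOneSpectrum (𝓞 K) → X)
      (c : HeightOneSpectrum (𝓞 (F i)) → X), (∀ y, σ (σ y) = y) →
      TwistOff (Z i) (1 : 𝓞 (F i)) σ x c → ∀ f : X → ℝ, (∀ y, |f y| ≤ 1) →
        |mean (F i) (fun w => f (c w)) N -
          (AK N (fun z => (f (xh x z) + f (σ (xh x z))) / 2 *
            push K (fun _ : HX (F i) => (1 : ℝ)) z) +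
          AK N (fun z => (f (xh x z) - f (σ (xh x z))) / 2 * push K (qh (1 : 𝓞 (F i))) z))| ≤
            1 / (8 * k) := by
    rw [Filter.eventually_all]
    intro i
    exact mean_twist (Z i) (one_ne_zero : (1 : 𝓞 (F i)) ≠ 0) (by positivity)
  filter_upwards [count_base F n hn hF ν k hk, h1, mean_base (K := K)
    (ε := 1 / (8 * k)) (by positivity)] with N hN hN1 hN2 X _ κ hκ x c hc
  refine le_trans ?_ (hN X κ hκ (xh x))
  refine Nat.cast_le.2 (Finset.card_le_card fun i hi => ?_)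
  obtain ⟨_, f, ⟨hf1, hf2⟩, hge⟩ := Finset.mem_filter.1 hi
  refine Finset.mem_filter.2 ⟨Finset.mem_univ _, f, hf2, fun y z => ?_, ?_⟩
  · have := hf1.dist_le_mul y z
    rwa [NNReal.coe_one, one_mul, Real.dist_eq] at this
  · have k1 := hN1 i X id x (c i) (fun _ => rfl) (hc i) f hf2
    have k2 := hN2 X x f hf2
    have e1 : (fun z => (f (xh x z) + f (id (xh x z))) / 2 *
        push K (fun _ : HX (F i) => (1 : ℝ)) z) =
        fun z => 1 * (f (xh x z) * (push K (fun _ : HX (F i) => (1 : ℝ)) z - 1)) +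
          1 * f (xh x z) := by
      funext z
      simp only [id]
      ring
    have e2 : AK N (fun z => (f (xh x z) - f (id (xh x z))) / 2 *
        push K (qh (1 : 𝓞 (F i))) z) = 0 := by
      obtain ⟨s, hs⟩ := AK_eq (K := K) N
      rw [hs, Finset.sum_eq_zero, zero_div]
      intro z _
      simp
    rw [e1, e2, AK_lin, add_zero, one_mul, one_mul] at k1
    have e3 : 3 / (8 * (k : ℝ)) = 1 / k - 1 / (8 * k) - 1 / (8 * k) - 1 / (8 * k) - 1 / (8 * k) -
        1 / (8 * k) := by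
      field_simp
      norm_num
    have e4 : 0 < 1 / (8 * (k : ℝ)) := by positivity
    rw [e3]
    set A := AK N fun z => f (xh x z) * (push K (fun _ : HX (F i) => (1 : ℝ)) z - 1) with hA
    rw [abs_le] at k1 k2
    rcases le_abs.1 hge with h | h
    · refine le_trans ?_ (le_abs_self A)
      linarith [k1.1, k1.2, k2.1, k2.2]
    · refine le_trans ?_ (neg_le_abs A)
      linarith [k1.1, k1.2, k2.1, k2.2]

open Classical in
/-- **The laws of the twisted base changes at a large scale.** -/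
theorem main_twist (n : ℕ) (hn : ∀ i, Nat.card (MaximalSpectrum (F i ⊗[K] F i)) ≤ n)
    (hF : ∀ i j, i ≠ j → IsField (F i ⊗[K] F j)) (d : ∀ i, 𝓞 (F i)) (hd : ∀ i, d i ≠ 0)
    (hsq : ∀ i j, i ≠ j → ¬ IsSquare ((d i : F i) ⊗ₜ[K] (d j : F j)))
    (Z : ∀ i, Finset (HeightOneSpectrum (𝓞 (F i)))) (ν k : ℕ) (hk : 1 ≤ k) :
    ∀ᶠ N : ℕ in atTop, ∀ (X : Type) [MetricSpace X] (κ : X → Fin ν),
      (∀ y z, κ y = κ z → dist y z ≤ 1 / (16 * k)) →
      ∀ (σ : X → X), LipschitzWith 1 σ → (∀ y, σ (σ y) = y) →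
      ∀ (x : HeightOneSpectrum (𝓞 K) → X) (c : ∀ i, HeightOneSpectrum (𝓞 (F i)) → X),
      (∀ i, TwistOff (Z i) (d i) σ x (c i)) →
      ((Finset.univ.filter fun i : ι => ∃ f : X → ℝ, (LipschitzWith 1 f ∧ ∀ y, |f y| ≤ 1) ∧
        1 / (k : ℝ) ≤ |mean (F i) (fun w => f (c i w)) N -
          mean K (fun v => (f (x v) + f (σ (x v))) / 2) N|).card : ℝ) ≤
        128 * (n + 1) * ν * k ^ 2 := by
  have hkR : (0 : ℝ) < k := by exact_mod_cast hk
  have h1 : ∀ᶠ N : ℕ in atTop, ∀ i : ι, ∀ (X : Type) (σ : X → X)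
      (x : HeightOneSpectrum (𝓞 K) → X)
      (c : HeightOneSpectrum (𝓞 (F i)) → X), (∀ y, σ (σ y) = y) →
      TwistOff (Z i) (d i) σ x c → ∀ f : X → ℝ, (∀ y, |f y| ≤ 1) →
        |mean (F i) (fun w => f (c w)) N -
          (AK N (fun z => (f (xh x z) + f (σ (xh x z))) / 2 *
            push K (fun _ : HX (F i) => (1 : ℝ)) z) +
          AK N (fun z => (f (xh x z) - f (σ (xh x z))) / 2 * push K (qh (d i)) z))| ≤
            1 / (8 * k) := by
    rw [Filter.eventually_all]
    intro i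
    exact mean_twist (Z i) (hd i) (by positivity)
  filter_upwards [count_base F n hn hF ν k hk, count_twist F n hn hF d hd hsq ν k hk, h1,
    mean_base (K := K) (ε := 1 / (8 * k)) (by positivity)] with N hN hN' hN1 hN2 X _ κ hκ σ hσ1
    hσ2 x c hc
  have a1 := hN X κ hκ (xh x)
  have a2 := hN' X κ hκ (xh x)
  have a3 : (64 : ℝ) * (n + 1) * ν * k ^ 2 + 64 * (n + 1) * ν * k ^ 2 =
      128 * (n + 1) * ν * k ^ 2 := by ring
  rw [← a3]
  refine le_trans ?_ (add_le_add a1 a2)
  rw [← Nat.cast_add]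
  refine Nat.cast_le.2 (le_trans (Finset.card_le_card ?_) (Finset.card_union_le _ _))
  intro i hi
  obtain ⟨_, f, ⟨hf1, hf2⟩, hge⟩ := Finset.mem_filter.1 hi
  have hfl : ∀ y z, |f y - f z| ≤ dist y z := fun y z => by
    have := hf1.dist_le_mul y z
    rwa [NNReal.coe_one, one_mul, Real.dist_eq] at this
  have hσl : ∀ y z, dist (σ y) (σ z) ≤ dist y z := fun y z => by
    have := hσ1.dist_le_mul y z
    rwa [NNReal.coe_one, one_mul] at this
  have heb : ∀ y, |(f y + f (σ y)) / 2| ≤ 1 := fun y => by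
    have e1 := abs_le.1 (hf2 y)
    have e2 := abs_le.1 (hf2 (σ y))
    rw [abs_le]
    constructor <;> linarith [e1.1, e1.2, e2.1, e2.2]
  have hob : ∀ y, |(f y - f (σ y)) / 2| ≤ 1 := fun y => by
    have e1 := abs_le.1 (hf2 y)
    have e2 := abs_le.1 (hf2 (σ y))
    rw [abs_le]
    constructor <;> linarith [e1.1, e1.2, e2.1, e2.2]
  have hel : ∀ y z, |(f y + f (σ y)) / 2 - (f z + f (σ z)) / 2| ≤ dist y z := fun y z => by
    have e1 := abs_le.1 (hfl y z)
    have e2 := abs_le.1 ((hfl (σ y) (σ z)).trans (hσl y z))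
    rw [abs_le]
    constructor <;> linarith [e1.1, e1.2, e2.1, e2.2]
  have hol : ∀ y z, |(f y - f (σ y)) / 2 - (f z - f (σ z)) / 2| ≤ dist y z := fun y z => by
    have e1 := abs_le.1 (hfl y z)
    have e2 := abs_le.1 ((hfl (σ y) (σ z)).trans (hσl y z))
    rw [abs_le]
    constructor <;> linarith [e1.1, e1.2, e2.1, e2.2]
  have k1 := hN1 i X σ x (c i) hσ2 (hc i) f hf2
  have k2 := hN2 X x (fun y => (f y + f (σ y)) / 2) heb
  have e1 : (fun z => (f (xh x z) + f (σ (xh x z))) / 2 *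
      push K (fun _ : HX (F i) => (1 : ℝ)) z) =
      fun z => 1 * ((f (xh x z) + f (σ (xh x z))) / 2 *
        (push K (fun _ : HX (F i) => (1 : ℝ)) z - 1)) +
        1 * ((f (xh x z) + f (σ (xh x z))) / 2) := by
    funext z
    ring
  rw [e1, AK_lin, one_mul, one_mul] at k1
  set A := AK N fun z => (f (xh x z) + f (σ (xh x z))) / 2 *
    (push K (fun _ : HX (F i) => (1 : ℝ)) z - 1) with hA
  set B := AK N fun z => (f (xh x z) - f (σ (xh x z))) / 2 * push K (qh (d i)) z with hB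
  have e4 : 0 < 1 / (8 * (k : ℝ)) := by positivity
  have e5 : 1 / (k : ℝ) = 8 * (1 / (8 * k)) := by field_simp
  have e6 : 3 / (8 * (k : ℝ)) = 3 * (1 / (8 * k)) := by ring
  rw [Finset.mem_union]
  by_cases hcase : 3 / (8 * (k : ℝ)) ≤ |A|
  · exact Or.inl (Finset.mem_filter.2 ⟨Finset.mem_univ _, fun y => (f y + f (σ y)) / 2, heb,
      hel, hcase⟩)
  · right
    refine Finset.mem_filter.2 ⟨Finset.mem_univ _, fun y => (f y - f (σ y)) / 2, hob, hol, ?_⟩
    rw [not_le] at hcase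
    change 3 / (8 * (k : ℝ)) ≤ |B|
    rw [abs_le] at k1 k2
    have h3 := abs_lt.1 hcase
    rcases le_abs.1 hge with h | h
    · refine le_trans ?_ (le_abs_self B)
      linarith [k1.1, k1.2, k2.1, k2.2, h3.1, h3.2]
    · refine le_trans ?_ (neg_le_abs B)
      linarith [k1.1, k1.2, k2.1, k2.2, h3.1, h3.2]

end

end Pool.Agent.Q11.ES
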