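import Pool.Agent.Q11.ES.Bes

/-! Means over the primes of an extension, uniform in the function. -/

set_option autoImplicit false
set_option linter.unusedSectionVars false

namespace Pool.Agent.Q11.ES

open NumberField IsDedekindDomain Filter Topology Pool.Agent.H341R2
open Pool.Agent.W529.ST Pool.Agent.W353.TP
open Pool.Agent.H921R2.TatePole (nm two_le_nm R hc R_eq_hc R_le kerPrime hom_finite)
open scoped TensorProduct

section
variable {F : Type} [Field F] [NumberField F]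

/-- the mean over the primes is the mean over the homomorphisms, uniformly -/
theorem mean_unif {ε : ℝ} (hε : 0 < ε) :
    ∀ᶠ N : ℕ in atTop, ∀ φ : HeightOneSpectrum (𝓞 F) → ℝ, (∀ v, |φ v| ≤ 1) →
      |mean F φ N - Av N fun p => ∑ ψ : 𝓞 F →+* ZMod (p : ℕ), φ (kerPrime p ψ).1.1| ≤ ε := by
  have h1 : Tendsto (fun N : ℕ => Module.finrank ℚ F * 1 * (Real.sqrt N /
      (Nat.primeCounting N : ℝ) + 1 / (Nat.primeCounting N : ℝ))) atTop (𝓝 0) := by
    have := (sqrt_div_pc.add (Tendsto.div_atTop (tendsto_const_nhds (x := (1 : ℝ))) pc_atTop)).const_mul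
      (Module.finrank ℚ F * 1 : ℝ)
    rwa [add_zero, mul_zero] at this
  have h2 := sum_div_pc (F := F) (fun _ => (1 : ℝ)) (B := 1) (fun _ => by simp)
  have h3 : Tendsto (fun N => Av N fun p => ∑ ψ : 𝓞 F →+* ZMod (p : ℕ), (1 : ℝ)) atTop (𝓝 1) := by
    have := tendsto_Av (mean_hc F)
    refine this.congr fun N => ?_
    congr 1
    funext p
    rw [Finset.sum_const, Finset.card_univ, card_hom_eq, R_eq_hc, nsmul_eq_mul, mul_one]
  have h4 : Tendsto (fun N : ℕ => (Nat.card {v : HeightOneSpectrum (𝓞 F) //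
      Ideal.absNorm v.asIdeal ≤ N} : ℝ) / (Nat.primeCounting N : ℝ)) atTop (𝓝 1) := by
    have := h2.add h3
    rw [zero_add] at this
    refine this.congr fun N => ?_
    have hfin := (finsum_eq (F := F) (fun _ => (1 : ℝ)) N).1
    let _ := Fintype.ofFinite {v : HeightOneSpectrum (𝓞 F) // Ideal.absNorm v.asIdeal ≤ N}
    rw [finsum_eq_sum_of_fintype, Finset.sum_const, Finset.card_univ, nsmul_eq_mul, mul_one,
      Nat.card_eq_fintype_card]
    ring
  have h5 : Tendsto (fun N : ℕ => |1 - (Nat.card {v : HeightOneSpectrum (𝓞 F) //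
      Ideal.absNorm v.asIdeal ≤ N} : ℝ) / (Nat.primeCounting N : ℝ)|) atTop (𝓝 0) := by
    have := (h4.const_sub 1).abs
    rwa [sub_self, abs_zero] at this
  filter_upwards [h1.eventually_lt_const (half_pos hε), h5.eventually_lt_const (half_pos hε),
    card_pos F, pc_atTop.eventually_gt_atTop 0] with N hN1 hN2 hN3 hN4 φ hφ
  have hfin := (finsum_eq (F := F) φ N).1
  let _ := Fintype.ofFinite {v : HeightOneSpectrum (𝓞 F) // Ideal.absNorm v.asIdeal ≤ N}
  set π := (Nat.primeCounting N : ℝ) with hπ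
  set q := (Nat.card {v : HeightOneSpectrum (𝓞 F) // Ideal.absNorm v.asIdeal ≤ N} : ℝ) with hq
  have hq0 : 0 < q := by
    rw [hq]
    exact_mod_cast hN3
  set S := ∑ᶠ v : {v : HeightOneSpectrum (𝓞 F) // Ideal.absNorm v.asIdeal ≤ N}, φ v.1 with hS
  set S' := ∑ p ∈ PR N, ∑ ψ : 𝓞 F →+* ZMod (p : ℕ), φ (kerPrime p ψ).1.1 with hS'
  have hSq : |S| ≤ q := by
    rw [hS, finsum_eq_sum_of_fintype]
    refine (Finset.abs_sum_le_sum_abs _ _).trans ?_
    refine (Finset.sum_le_sum fun v _ => hφ v.1).trans ?_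
    rw [Finset.sum_const, Finset.card_univ, nsmul_eq_mul, mul_one, hq, Nat.card_eq_fintype_card]
  have hlow : |S - S'| ≤ Module.finrank ℚ F * 1 * (Real.sqrt N + 1) := sum_low φ hφ N
  have e1 : mean F φ N = S / q := rfl
  have e2 : (Av N fun p => ∑ ψ : 𝓞 F →+* ZMod (p : ℕ), φ (kerPrime p ψ).1.1) = S' / π := rfl
  have e3 : S / q - S' / π = S / q * (1 - q / π) + (S - S') / π := by
    field_simp
    ring
  rw [e1, e2, e3]
  refine (abs_add_le _ _).trans ?_
  have e4 : |S / q * (1 - q / π)| ≤ ε / 2 := by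
    rw [abs_mul, abs_div, abs_of_pos hq0]
    have : |S| / q ≤ 1 := (div_le_one hq0).2 hSq
    calc |S| / q * |1 - q / π| ≤ 1 * |1 - q / π| :=
          mul_le_mul_of_nonneg_right this (abs_nonneg _)
      _ ≤ _ := by rw [one_mul]; exact hN2.le
  have e5 : |(S - S') / π| ≤ ε / 2 := by
    rw [abs_div, abs_of_pos hN4]
    refine (div_le_div_of_nonneg_right hlow hN4.le).trans ?_
    refine le_trans (le_of_eq ?_) hN1.le
    field_simp
  linarith

/-- functions supported on the prime divisors of an integer have small means, uniformly -/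
theorem unif_dvd {M : ℤ} (hM : M ≠ 0) (B : ℝ) {ε : ℝ} (hε : 0 < ε) :
    ∀ᶠ N : ℕ in atTop, ∀ φ : Nat.Primes → ℝ, (∀ p, |φ p| ≤ B) →
      (∀ p : Nat.Primes, ¬ ((p : ℕ) : ℤ) ∣ M → φ p = 0) → |Av N φ| ≤ ε := by
  classical
  have hfin : {p : Nat.Primes | ((p : ℕ) : ℤ) ∣ M}.Finite := by
    have h1 : (M.natAbs.primeFactors : Set ℕ).Finite := Finset.finite_toSet _
    refine (h1.preimage (f := fun p : Nat.Primes => (p : ℕ)) ?_).subset ?_
    · exact fun a _ b _ h => Subtype.ext h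
    · intro p hp
      simp only [Set.mem_preimage, Finset.mem_coe, Nat.mem_primeFactors]
      refine ⟨p.2, ?_, Int.natAbs_ne_zero.2 hM⟩
      exact Int.natCast_dvd.1 hp
  have h1 : Tendsto (fun N : ℕ => ((hfin.toFinset.card : ℝ) * B) / (Nat.primeCounting N : ℝ))
      atTop (𝓝 0) := Tendsto.div_atTop tendsto_const_nhds pc_atTop
  filter_upwards [h1.eventually_lt_const hε, pc_atTop.eventually_gt_atTop 0] with N hN hN0 φ hφ hφ0
  have hb : |∑ p ∈ PR N, φ p| ≤ (hfin.toFinset.card : ℝ) * B := by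
    refine (Finset.abs_sum_le_sum_abs _ _).trans ?_
    have e1 : ∑ p ∈ PR N, |φ p| = ∑ p ∈ (PR N).filter (fun p => p ∈ hfin.toFinset), |φ p| := by
      refine (Finset.sum_filter_of_ne fun p _ hp => ?_).symm
      rw [Set.Finite.mem_toFinset]
      by_contra hc
      exact hp (by rw [hφ0 p hc, abs_zero])
    rw [e1]
    refine (Finset.sum_le_sum_of_subset_of_nonneg (fun p hp => (Finset.mem_filter.1 hp).2)
      fun p _ _ => abs_nonneg _).trans ?_
    refine (Finset.sum_le_sum fun p _ => hφ p).trans ?_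
    rw [Finset.sum_const, nsmul_eq_mul]
  unfold Av
  rw [abs_div, abs_of_pos hN0]
  exact (div_le_div_of_nonneg_right hb hN0.le).trans hN.le

end

section
variable {K F : Type} [Field K] [NumberField K] [Field F] [NumberField F] [Algebra K F]

/-- the classes of the twist by `d`, exactly, at the primes of residue degree one outside `Z` -/
def TwistOff {X : Type} (Z : Finset (HeightOneSpectrum (𝓞 F))) (d : 𝓞 F) (σ : X → X)
    (x : HeightOneSpectrum (𝓞 K) → X) (c : HeightOneSpectrum (𝓞 F) → X) : Prop :=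
  ∀ w, w ∉ Z → ∀ v : HeightOneSpectrum (𝓞 K),
    w.asIdeal.comap (algebraMap (𝓞 K) (𝓞 F)) = v.asIdeal →
    Ideal.absNorm w.asIdeal = Ideal.absNorm v.asIdeal →
    (IsSquare (Ideal.Quotient.mk w.asIdeal d) → c w = x v) ∧
    (¬ IsSquare (Ideal.Quotient.mk w.asIdeal d) → c w = σ (x v))

/-- the classes at the kernel of a homomorphism -/
theorem twist_ker {X : Type} {σ : X → X} {x : HeightOneSpectrum (𝓞 K) → X} {d : 𝓞 F}
    {c : HeightOneSpectrum (𝓞 F) → X} (hc : TwistOff ∅ d σ x c)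
    (p : Nat.Primes) [Fact (p : ℕ).Prime] (hp : ¬ ((p : ℕ) : ℤ) ∣ N0 d)
    (ψ : 𝓞 F →+* ZMod (p : ℕ)) :
    (qh d ⟨p, ψ⟩ = 1 ∧ c (kerPrime p ψ).1.1 = xh x ⟨p, res K ψ⟩) ∨
    (qh d ⟨p, ψ⟩ = -1 ∧ c (kerPrime p ψ).1.1 = σ (xh x ⟨p, res K ψ⟩)) := by
  have h2d : ψ (2 * d) ≠ 0 := by
    obtain ⟨e, he⟩ := dvd_N0 d
    intro h0
    apply hp
    have h8 := congrArg ψ he
    rw [map_mul, h0, mul_zero, map_intCast, ZMod.intCast_zmod_eq_zero_iff_dvd] at h8
    exact h8
  have hψd : ψ d ≠ 0 := by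
    intro h0
    apply h2d
    rw [map_mul, h0, mul_zero]
  have hcm : (kerPrime p ψ).1.1.asIdeal.comap (algebraMap (𝓞 K) (𝓞 F)) =
      (kerPrime p (res K ψ)).1.1.asIdeal := by
    change (RingHom.ker ψ).comap (algebraMap (𝓞 K) (𝓞 F)) = RingHom.ker (res K ψ)
    ext z
    rw [Ideal.mem_comap, RingHom.mem_ker, RingHom.mem_ker]
    rfl
  have hnm : Ideal.absNorm (kerPrime p ψ).1.1.asIdeal =
      Ideal.absNorm (kerPrime p (res K ψ)).1.1.asIdeal := by
    have h1 : Ideal.absNorm (kerPrime p ψ).1.1.asIdeal = (p : ℕ) := nm_kerPrime p ψ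
    have h2 : Ideal.absNorm (kerPrime p (res K ψ)).1.1.asIdeal = (p : ℕ) :=
      nm_kerPrime p (res K ψ)
    rw [h1, h2]
  have hdw : Ideal.Quotient.mk (kerPrime p ψ).1.1.asIdeal d ≠ 0 := by
    intro h
    exact hψd (Ideal.Quotient.eq_zero_iff_mem.1 h)
  obtain ⟨h3, h4⟩ := hc (kerPrime p ψ).1.1 (Finset.notMem_empty _) (kerPrime p (res K ψ)).1.1 hcm hnm
  have h5 : (chi d (kerPrime p ψ).1.1 : ℤ) = quadraticChar (ZMod (p : ℕ)) (ψ d) :=
    chi_kerPrime d p ψ
  have h6 : chi d (kerPrime p ψ).1.1 = 1 ↔ IsSquare (Ideal.Quotient.mk (kerPrime p ψ).1.1.asIdeal d) :=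
    quadraticChar_one_iff_isSquare hdw
  rw [qh_eq]
  rcases quadraticChar_dichotomy hψd with h | h
  · left
    refine ⟨by rw [h]; norm_num, h3 (h6.1 (by rw [h5, h]))⟩
  · right
    refine ⟨by rw [h]; norm_num, h4 fun hs => ?_⟩
    have := h6.2 hs
    rw [h5, h] at this
    norm_num at this

/-- the sum over the homomorphisms of `F` of a function pushed to `K` -/
theorem AK_push (N : ℕ) (g : HX K → ℝ) (h : HX F → ℝ) :
    AK N (fun z => g z * push K h z) =
      Av N fun p => ∑ ψ : 𝓞 F →+* ZMod (p : ℕ), g ⟨p, res K ψ⟩ * h ⟨p, ψ⟩ := by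
  classical
  unfold AK
  congr 1
  funext p
  rw [← sum_push (K := K) (fun x : HX F => g ⟨x.1, res K x.2⟩ * h x) p]
  refine Finset.sum_congr rfl fun u _ => ?_
  change g ⟨p, u⟩ * (∑ ψ ∈ Finset.univ.filter (fun ψ : 𝓞 F →+* ZMod (p : ℕ) => res K ψ = u),
      h ⟨p, ψ⟩) = ∑ ψ ∈ Finset.univ.filter (fun ψ : 𝓞 F →+* ZMod (p : ℕ) => res K ψ = u),
      g ⟨p, res K ψ⟩ * h ⟨p, ψ⟩
  rw [Finset.mul_sum]
  refine Finset.sum_congr rfl fun ψ hψ => ?_
  have h7 : res K ψ = u := (Finset.mem_filter.1 hψ).2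
  have h9 : (⟨p, u⟩ : HX K) = ⟨p, res K ψ⟩ := by rw [← h7]
  exact congrArg (fun x : HX K => g x * h (⟨p, ψ⟩ : HX F)) h9

/-- the mean of a function of the classes of a twist, uniformly in the classes -/
theorem mean_twist (Z : Finset (HeightOneSpectrum (𝓞 F))) {d : 𝓞 F} (hd : d ≠ 0) {ε : ℝ}
    (hε : 0 < ε) :
    ∀ᶠ N : ℕ in atTop, ∀ (X : Type) (σ : X → X) (x : HeightOneSpectrum (𝓞 K) → X)
      (c : HeightOneSpectrum (𝓞 F) → X), (∀ y, σ (σ y) = y) → TwistOff Z d σ x c →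
      ∀ f : X → ℝ, (∀ y, |f y| ≤ 1) →
        |mean F (fun w => f (c w)) N -
          (AK N (fun z => (f (xh x z) + f (σ (xh x z))) / 2 * push K (fun _ : HX F => (1 : ℝ)) z) +
          AK N (fun z => (f (xh x z) - f (σ (xh x z))) / 2 * push K (qh d) z))| ≤ ε := by
  classical
  filter_upwards [mean_off (F := F) (Z := (Z : Set (HeightOneSpectrum (𝓞 F)))) Z.finite_toSet
      (ε := ε / 3) (by positivity), mean_unif (F := F) (ε := ε / 3) (by positivity),
    unif_dvd (N0_ne_zero hd) (Module.finrank ℚ F * 3 : ℝ) (ε := ε / 3) (by positivity)]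
    with N hN1 hN2 hN3 X σ x c hσ hc f hf
  -- the exact classes
  let c' : HeightOneSpectrum (𝓞 F) → X := fun w =>
    if h : ∃ v : HeightOneSpectrum (𝓞 K), w.asIdeal.comap (algebraMap (𝓞 K) (𝓞 F)) = v.asIdeal ∧
      Ideal.absNorm w.asIdeal = Ideal.absNorm v.asIdeal then
    (if IsSquare (Ideal.Quotient.mk w.asIdeal d) then x h.choose else σ (x h.choose))
    else c w
  have hc' : TwistOff ∅ d σ x c' := by
    intro w _ v hv hn
    have h : ∃ v : HeightOneSpectrum (𝓞 K), w.asIdeal.comap (algebraMap (𝓞 K) (𝓞 F)) =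
      v.asIdeal ∧ Ideal.absNorm w.asIdeal = Ideal.absNorm v.asIdeal := ⟨v, hv, hn⟩
    have h1 : h.choose = v := HeightOneSpectrum.ext (h.choose_spec.1.symm.trans hv)
    simp only [c']
    rw [dif_pos h, h1]
    exact ⟨fun hs => if_pos hs, fun hs => if_neg hs⟩
  have hcc : ∀ w, w ∉ (Z : Set (HeightOneSpectrum (𝓞 F))) → f (c w) = f (c' w) := by
    intro w hw
    simp only [c']
    split_ifs with h h'
    · rw [(hc w hw _ h.choose_spec.1 h.choose_spec.2).1 h']
    · rw [(hc w hw _ h.choose_spec.1 h.choose_spec.2).2 h']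
    · rfl
  have k1 := hN1 (fun w => f (c w)) (fun w => f (c' w)) (fun v => by
    have e1 := abs_le.1 (hf (c v))
    have e2 := abs_le.1 (hf (c' v))
    rw [abs_le]
    constructor <;> linarith [e1.1, e1.2, e2.1, e2.2]) hcc
  have k2 := hN2 (fun w => f (c' w)) fun w => hf _
  set e : HX K → ℝ := fun z => (f (xh x z) + f (σ (xh x z))) / 2 with he
  set o : HX K → ℝ := fun z => (f (xh x z) - f (σ (xh x z))) / 2 with ho
  have heb : ∀ z, |e z| ≤ 1 := fun z => by
    have e1 := abs_le.1 (hf (xh x z))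
    have e2 := abs_le.1 (hf (σ (xh x z)))
    rw [he, abs_le]
    constructor <;> linarith [e1.1, e1.2, e2.1, e2.2]
  have hob : ∀ z, |o z| ≤ 1 := fun z => by
    have e1 := abs_le.1 (hf (xh x z))
    have e2 := abs_le.1 (hf (σ (xh x z)))
    rw [ho, abs_le]
    constructor <;> linarith [e1.1, e1.2, e2.1, e2.2]
  have k3 := hN3 (fun p => ∑ ψ : 𝓞 F →+* ZMod (p : ℕ), (f (c' (kerPrime p ψ).1.1) -
    (e ⟨p, res K ψ⟩ * 1 + o ⟨p, res K ψ⟩ * qh d ⟨p, ψ⟩))) (fun p => by
      refine (Finset.abs_sum_le_sum_abs _ _).trans ?_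
      have b1 : ∀ ψ : 𝓞 F →+* ZMod (p : ℕ), |f (c' (kerPrime p ψ).1.1) -
          (e ⟨p, res K ψ⟩ * 1 + o ⟨p, res K ψ⟩ * qh d ⟨p, ψ⟩)| ≤ 3 := by
        intro ψ
        have e1 := hf (c' (kerPrime p ψ).1.1)
        have e2 := heb ⟨p, res K ψ⟩
        have e3 : |o ⟨p, res K ψ⟩ * qh d ⟨p, ψ⟩| ≤ 1 := by
          rw [abs_mul]
          exact mul_le_one₀ (hob _) (abs_nonneg _) (qh_abs d _)
        rw [abs_le] at e1 e2 e3 ⊢
        constructor <;> linarith [e1.1, e1.2, e2.1, e2.2, e3.1, e3.2]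
      refine (Finset.sum_le_sum fun ψ _ => b1 ψ).trans ?_
      rw [Finset.sum_const, nsmul_eq_mul, Finset.card_univ]
      refine mul_le_mul_of_nonneg_right ?_ (by norm_num)
      exact_mod_cast card_hom_le p) (fun p hp => by
      have : Fact (p : ℕ).Prime := ⟨p.2⟩
      refine Finset.sum_eq_zero fun ψ _ => ?_
      rcases twist_ker hc' p hp ψ with ⟨h3, h4⟩ | ⟨h3, h4⟩
      · rw [h3, h4, he, ho]
        ring
      · rw [h3, h4, he, ho]
        ring)
  have k4 : (Av N fun p => ∑ ψ : 𝓞 F →+* ZMod (p : ℕ), (f (c' (kerPrime p ψ).1.1) -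
      (e ⟨p, res K ψ⟩ * 1 + o ⟨p, res K ψ⟩ * qh d ⟨p, ψ⟩))) =
      (Av N fun p => ∑ ψ : 𝓞 F →+* ZMod (p : ℕ), f (c' (kerPrime p ψ).1.1)) -
        (AK N (fun z => e z * push K (fun _ : HX F => (1 : ℝ)) z) +
          AK N (fun z => o z * push K (qh d) z)) := by
    rw [AK_push, AK_push, ← Av_add, ← Av_sub]
    congr 1
    funext p
    rw [← Finset.sum_add_distrib, ← Finset.sum_sub_distrib]
  rw [k4] at k3
  rw [abs_le] at k1 k2 k3 ⊢
  constructor <;> linarith [k1.1, k1.2, k2.1, k2.2, k3.1, k3.2]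

end

end Pool.Agent.Q11.ES
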